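import Pool.Agent.Helper52.NF.St

/-! Project NF, module S3b: heart of the Sebo lemma. -/

set_option autoImplicit false

namespace Pool.Agent.Helper86.NF

open Pool.Agent.Helper52.NF Finset

private theorem edge {ε N : Type} [DecidableEq ε] [DecidableEq N] (α β : ε → N) {g : ε} {u z : N}
    (h : (α g = u ∧ β g = z) ∨ (α g = z ∧ β g = u)) (x : N) :
    pt (α g) x + pt (β g) x = pt u x + pt z x := by
  rcases h with ⟨h1, h2⟩ | ⟨h1, h2⟩
  · rw [h1, h2]
  · rw [h1, h2, add_comm]

private theorem atu {ε N : Type} [DecidableEq ε] [DecidableEq N] (α β : ε → N) {g : ε} {u z : N}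
    (h : (α g = u ∧ β g = z) ∨ (α g = z ∧ β g = u)) : At α β u g := by
  rcases h with ⟨h1, _⟩ | ⟨_, h2⟩
  · exact Or.inl h1
  · exact Or.inr h2

private theorem wt_ins {ε : Type} [DecidableEq ε] {J A : Finset ε} {g : ε} (hg : g ∉ A)
    (hJ : g ∉ J) : wt J (insert g A) = 1 + wt J A := by
  rw [Finset.insert_eq, wt_union J (Finset.disjoint_singleton_left.2 hg), wt_singleton_notMem hJ]

/-- **S3b.** -/
theorem hS3b (h1 : StL1) (hs : StSPL) (h0 : StS0) : StS3b := by
  intro ε N _ _ α β E J P Q u v z1 z2 e₀ g1 g2 hnl hC hP heJ heP heu hPu hQE hQu hQ hwQ hQ0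
    hg1E hg1J hg1 hg2E hg2J hg2
  obtain ⟨hPE, ⟨huv, hbP⟩, hwP, hmin⟩ := hP
  have hP0 := h0 ε N α β E J P u v hC ⟨hPE, ⟨huv, hbP⟩, hwP, hmin⟩
  obtain ⟨hz12, hbQ⟩ := hQ
  have hg1Q : g1 ∉ Q := fun h => hQu g1 h (atu α β hg1)
  have hg2Q : g2 ∉ Q := fun h => hQu g2 h (atu α β hg2)
  have hg1P : g1 ∉ P := fun h => hg1J ((hPu g1 h (atu α β hg1)).symm ▸ heJ)
  have hg2P : g2 ∉ P := fun h => hg2J ((hPu g2 h (atu α β hg2)).symm ▸ heJ)
  -- step 1
  have s1 : wt J (P ∩ Q) ≤ -1 := by
    have hn : g1 ∉ symmDiff P Q := by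
      rw [Finset.mem_symmDiff]
      tauto
    have hsub : insert g1 (symmDiff P Q) ⊆ E := by
      intro e he
      rw [Finset.mem_insert, Finset.mem_symmDiff] at he
      rcases he with rfl | ⟨h, _⟩ | ⟨h, _⟩
      · exact hg1E
      · exact hPE h
      · exact hQE h
    have hb : ∀ x, bd α β (insert g1 (symmDiff P Q)) x = pt v x + pt z2 x := by
      intro x
      rw [bd_insert α β hn, edge α β hg1, bd_symmDiff, hbP, hbQ]
      have e1 := zz (pt u x)
      have e2 := zz (pt z1 x)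
      linear_combination e1 + e2
    have hw : wt J (insert g1 (symmDiff P Q)) = wt J P - 1 - 2 * wt J (P ∩ Q) := by
      rw [wt_ins hn hg1J, wt_symmDiff, hwQ]
      ring
    by_cases hv : v = z2
    · have h2 := hC.2 _ hsub (fun x => by rw [hb x, hv]; exact zz _)
      rw [hw] at h2
      omega
    · have h2 := hmin _ hsub v z2 ⟨hv, hb⟩
      rw [hw] at h2
      omega
  have hne : (P ∩ Q) ≠ ∅ := by
    intro h
    rw [h, wt_empty] at s1
    omega
  -- step 2
  have hPQ : P \ Q = P \ (P ∩ Q) := by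
    ext e
    simp only [Finset.mem_sdiff, Finset.mem_inter]
    tauto
  have hPQu : bd α β (P \ Q) u = 1 := by
    rw [hPQ, bd_sdiff α β Finset.inter_subset_left,
      bd_of_notAt α β (fun e he => hQu e (Finset.mem_inter.1 he).2), hbP, pt_self,
      pt_ne huv, add_zero, add_zero]
  obtain ⟨Pa, hPa, y, hyu, hy1, hbPa⟩ := h1 ε N α β (P \ Q) u hPQu
  have hPaP : Pa ⊆ P := hPa.trans Finset.sdiff_subset
  have hbr : ∀ x, bd α β (P \ Pa) x = pt v x + pt y x := by
    intro x
    rw [bd_sdiff α β hPaP, hbP, hbPa]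
    have e1 := zz (pt u x)
    linear_combination e1
  -- step 3
  have s3 : ∃ e ∈ Q, At α β y e := by
    by_contra hc
    push Not at hc
    have hy2 : bd α β P y = 1 := by
      have h2 := hy1
      rw [hPQ, bd_sdiff α β Finset.inter_subset_left,
        bd_of_notAt α β (fun e he => hc e (Finset.mem_inter.1 he).2), add_zero] at h2
      exact h2
    have hyv : y = v := by
      by_contra hyv
      rw [hbP, pt_ne hyu, pt_ne hyv, add_zero] at hy2
      exact zero_ne_one hy2
    have h3 : P \ Pa = ∅ := hP0 _ Finset.sdiff_subset (fun x => by rw [hbr x, hyv]; exact zz _)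
    obtain ⟨e, he⟩ := Finset.nonempty_iff_ne_empty.2 hne
    rw [Finset.mem_inter] at he
    have h4 : e ∈ Pa := by
      by_contra h5
      have h6 : e ∈ P \ Pa := Finset.mem_sdiff.2 ⟨he.1, h5⟩
      rw [h3] at h6
      exact absurd h6 (Finset.notMem_empty e)
    exact (Finset.mem_sdiff.1 (hPa h4)).2 he.2
  -- step 4
  obtain ⟨Q1, hQ1, hbQ1⟩ := hs ε N α β Q z1 z2 y (fun e he => hnl e (hQE he)) ⟨hz12, hbQ⟩ hQ0 s3
  have hbQ2 : ∀ x, bd α β (Q \ Q1) x = pt z2 x + pt y x := by
    intro x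
    rw [bd_sdiff α β hQ1, hbQ, hbQ1]
    have e1 := zz (pt z1 x)
    linear_combination e1
  have gen : ∀ (g : ε) (z : N) (R : Finset ε), R ⊆ Q → g ∈ E → g ∉ J → g ∉ P → g ∉ Q →
      ((α g = u ∧ β g = z) ∨ (α g = z ∧ β g = u)) → (∀ x, bd α β R x = pt z x + pt y x) →
      0 ≤ 1 + (wt J Pa + wt J R) := by
    intro g z R hR hgE hgJ hgP hgQ hg hbR
    have hd : Disjoint Pa R := by
      rw [Finset.disjoint_left]
      intro e he he'
      exact (Finset.mem_sdiff.1 (hPa he)).2 (hR he')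
    have hn : g ∉ Pa ∪ R := by
      rw [Finset.mem_union]
      rintro (h | h)
      · exact hgP (hPaP h)
      · exact hgQ (hR h)
    have hsub : insert g (Pa ∪ R) ⊆ E := by
      intro e he
      rw [Finset.mem_insert, Finset.mem_union] at he
      rcases he with rfl | h | h
      · exact hgE
      · exact hPE (hPaP h)
      · exact hQE (hR h)
    have h2 := hC.2 _ hsub (fun x => by
      rw [bd_insert α β hn, edge α β hg, bd_union α β hd, hbPa, hbR]
      have e1 := zz (pt u x)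
      have e2 := zz (pt z x)
      have e3 := zz (pt y x)
      linear_combination e1 + e2 + e3)
    rw [wt_ins hn hgJ, wt_union J hd] at h2
    exact h2
  have k1 := gen g1 z1 Q1 hQ1 hg1E hg1J hg1P hg1Q hg1 hbQ1
  have k2 := gen g2 z2 (Q \ Q1) Finset.sdiff_subset hg2E hg2J hg2P hg2Q hg2 hbQ2
  rw [wt_sdiff J hQ1, hwQ] at k2
  have hwa : 0 ≤ wt J Pa := by omega
  -- step 5
  have hPane : Pa.Nonempty := by
    rw [Finset.nonempty_iff_ne_empty]
    intro h
    have h2 := hbPa u
    rw [h, bd_empty, pt_self, pt_ne (Ne.symm hyu), add_zero] at h2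
    exact zero_ne_one h2
  by_cases hyv : y = v
  · have h3 : P \ Pa = ∅ := hP0 _ Finset.sdiff_subset (fun x => by rw [hbr x, hyv]; exact zz _)
    have h4 : P = Pa := Finset.Subset.antisymm (Finset.sdiff_eq_empty_iff_subset.1 h3) hPaP
    rw [← h4] at hwa
    omega
  · have h2 := hmin _ (Finset.sdiff_subset.trans hPE) v y ⟨Ne.symm hyv, hbr⟩
    rw [wt_sdiff J hPaP] at h2
    have h3 : (P \ Pa).card < P.card :=
      Finset.card_lt_card (Finset.sdiff_ssubset hPaP hPane)
    omega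

end Pool.Agent.Helper86.NF
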